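import Pool.Agent.Helper68.KN.N2d
import Pool.Agent.Helper3.KN.SoAlt

/-!
# KN-N2: spaces of matrices above an orthogonal or a symplectic Lie algebra

`exists_diag`: a symmetric invertible matrix is congruent to a diagonal one (characteristic not 2).
`so_max_sym_of_diag`: transfer of the diagonal case to a symmetric form. `so_max`: block N2.
-/

set_option autoImplicit false

open Matrix

namespace Pool.Agent.Helper68.KN

variable {F : Type*} [Field F] {m : Type*} [Fintype m] [DecidableEq m]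

/-- orthogonal bases -/
theorem exists_diag (h2 : (2 : F) ≠ 0) {J : Matrix m m F} (hJ : IsUnit J.det) (hs : Jᵀ = J) :
    ∃ (P Q : Matrix m m F) (d : m → F), P * Q = 1 ∧ Q * P = 1 ∧ Pᵀ * J * P = diagonal d ∧ ∀ i, d i ≠ 0 := by
  haveI : Invertible (2 : F) := invertibleOfNonzero h2
  have hsy : LinearMap.IsSymm (Matrix.toBilin' J) := by
    constructor
    intro x y
    show Matrix.toBilin' J x y = Matrix.toBilin' J y x
    rw [Matrix.toBilin'_apply', Matrix.toBilin'_apply', dotProduct_mulVec, ← mulVec_transpose, hs, dotProduct_comm]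
  obtain ⟨v, hv⟩ := LinearMap.BilinForm.exists_orthogonal_basis hsy
  have hc : Fintype.card (Fin (Module.finrank F (m → F))) = Fintype.card m := by
    rw [Fintype.card_fin, Module.finrank_fintype_fun_eq_card]
  obtain ⟨e⟩ : Nonempty (Fin (Module.finrank F (m → F)) ≃ m) := Fintype.card_eq.1 hc
  set u : Module.Basis m F (m → F) := v.reindex e with hu
  set P : Matrix m m F := (Pi.basisFun F m).toMatrix u with hP
  set Q : Matrix m m F := u.toMatrix (Pi.basisFun F m) with hQ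
  have hPQ : P * Q = 1 := by
    rw [hP, hQ, Module.Basis.toMatrix_mul_toMatrix, Module.Basis.toMatrix_self]
  have hQP : Q * P = 1 := by
    rw [hP, hQ, Module.Basis.toMatrix_mul_toMatrix, Module.Basis.toMatrix_self]
  have hPe : ∀ i j, P i j = u j i := by
    intro i j
    rw [hP, Module.Basis.toMatrix_apply, Pi.basisFun_repr]
  have hent : ∀ i j, (Pᵀ * J * P) i j = Matrix.toBilin' J (u i) (u j) := by
    intro i j
    rw [Matrix.toBilin'_apply', Matrix.mul_assoc, Matrix.mul_apply, dotProduct]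
    refine Finset.sum_congr rfl fun k _ => ?_
    rw [Matrix.transpose_apply, hPe, Matrix.mul_apply, mulVec, dotProduct]
    refine congrArg _ (Finset.sum_congr rfl fun l _ => ?_)
    rw [hPe]
  refine ⟨P, Q, fun i => (Pᵀ * J * P) i i, hPQ, hQP, ?_, ?_⟩
  · ext i j
    by_cases hij : i = j
    · subst hij
      rw [diagonal_apply_eq]
    · rw [diagonal_apply_ne _ hij, hent, hu, Module.Basis.reindex_apply, Module.Basis.reindex_apply]
      exact hv (fun h => hij (e.symm.injective h))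
  · have h3 : Pᵀ * J * P = diagonal fun i => (Pᵀ * J * P) i i := by
      ext i j
      by_cases hij : i = j
      · subst hij
        rw [diagonal_apply_eq]
      · rw [diagonal_apply_ne _ hij, hent, hu, Module.Basis.reindex_apply, Module.Basis.reindex_apply]
        exact hv (fun h => hij (e.symm.injective h))
    have h4 : (Pᵀ * J * P).det ≠ 0 := by
      rw [det_mul, det_mul, det_transpose]
      have h5 : P.det * Q.det = 1 := by rw [← det_mul, hPQ, det_one]
      have h6 : P.det ≠ 0 := left_ne_zero_of_mul (h5.trans_ne one_ne_zero)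
      exact mul_ne_zero (mul_ne_zero h6 hJ.ne_zero) h6
    rw [h3, det_diagonal] at h4
    intro i
    exact Finset.prod_ne_zero_iff.1 h4 i (Finset.mem_univ i)

/-- transfer to a diagonal form -/
theorem so_max_sym_of_diag {J : Matrix m m F} (h2 : (2 : F) ≠ 0) (hJ : IsUnit J.det) (hs : Jᵀ = J)
    (H : ∀ d : m → F, (∀ i, d i ≠ 0) → ∀ L : Submodule F (Matrix m m F), (∀ x ∈ L, ∀ y ∈ L, x * y - y * x ∈ L) →
      (∀ s : Matrix m m F, sᵀ * diagonal d + diagonal d * s = 0 → ∀ a ∈ L, s * a - a * s ∈ L) →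
      (∃ c ∈ L, ∀ l : F, c ≠ l • (1 : Matrix m m F)) →
      (∀ x : Matrix m m F, x.trace = 0 → x ∈ L) ∨
        (∀ s : Matrix m m F, sᵀ * diagonal d + diagonal d * s = 0 → s ∈ L) ∧
          ∀ c ∈ L, ∃ l : F, cᵀ * diagonal d + diagonal d * c = l • diagonal d)
    (L : Submodule F (Matrix m m F)) (hbr : ∀ x ∈ L, ∀ y ∈ L, x * y - y * x ∈ L)
    (hL : ∀ s : Matrix m m F, sᵀ * J + J * s = 0 → ∀ a ∈ L, s * a - a * s ∈ L)
    (hns : ∃ c ∈ L, ∀ l : F, c ≠ l • (1 : Matrix m m F)) :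
    (∀ x : Matrix m m F, x.trace = 0 → x ∈ L) ∨
      (∀ s : Matrix m m F, sᵀ * J + J * s = 0 → s ∈ L) ∧ ∀ c ∈ L, ∃ l : F, cᵀ * J + J * c = l • J := by
  obtain ⟨P, Q, d, hPQ, hQP, hD, hd⟩ := exists_diag h2 hJ hs
  have hPQt : Qᵀ * Pᵀ = 1 := by rw [← transpose_mul, hPQ, transpose_one]
  have hQPt : Pᵀ * Qᵀ = 1 := by rw [← transpose_mul, hQP, transpose_one]
  have hDJ : Qᵀ * diagonal d * Q = J := by
    rw [← hD]
    calc Qᵀ * (Pᵀ * J * P) * Q = (Qᵀ * Pᵀ) * J * (P * Q) := by simp only [Matrix.mul_assoc]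
      _ = J := by rw [hPQ, hPQt, Matrix.one_mul, Matrix.mul_one]
  -- conjugation
  have hc1 : ∀ x y : Matrix m m F, (P * x * Q) * (P * y * Q) = P * (x * y) * Q := by
    intro x y
    calc (P * x * Q) * (P * y * Q) = P * x * (Q * P) * y * Q := by simp only [Matrix.mul_assoc]
      _ = _ := by rw [hQP, Matrix.mul_one]; simp only [Matrix.mul_assoc]
  have hc2 : ∀ x y : Matrix m m F, (Q * x * P) * (Q * y * P) = Q * (x * y) * P := by
    intro x y
    calc (Q * x * P) * (Q * y * P) = Q * x * (P * Q) * y * P := by simp only [Matrix.mul_assoc]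
      _ = _ := by rw [hPQ, Matrix.mul_one]; simp only [Matrix.mul_assoc]
  have hb1 : ∀ x : Matrix m m F, P * (Q * x * P) * Q = x := by
    intro x
    calc P * (Q * x * P) * Q = (P * Q) * x * (P * Q) := by simp only [Matrix.mul_assoc]
      _ = x := by rw [hPQ, Matrix.one_mul, Matrix.mul_one]
  have hb2 : ∀ x : Matrix m m F, Q * (P * x * Q) * P = x := by
    intro x
    calc Q * (P * x * Q) * P = (Q * P) * x * (Q * P) := by simp only [Matrix.mul_assoc]
      _ = x := by rw [hQP, Matrix.one_mul, Matrix.mul_one]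
  -- the form of a conjugate
  have hf1 : ∀ x : Matrix m m F, Pᵀ * ((P * x * Q)ᵀ * J + J * (P * x * Q)) * P = xᵀ * diagonal d + diagonal d * x := by
    intro x
    rw [Matrix.mul_add, Matrix.add_mul, transpose_mul, transpose_mul]
    congr 1
    · calc Pᵀ * (Qᵀ * (xᵀ * Pᵀ) * J) * P = (Pᵀ * Qᵀ) * xᵀ * (Pᵀ * J * P) := by simp only [Matrix.mul_assoc]
        _ = _ := by rw [hQPt, Matrix.one_mul, hD]
    · calc Pᵀ * (J * (P * x * Q)) * P = (Pᵀ * J * P) * x * (Q * P) := by simp only [Matrix.mul_assoc]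
        _ = _ := by rw [hQP, Matrix.mul_one, hD]
  have hinj : ∀ A B : Matrix m m F, Pᵀ * A * P = Pᵀ * B * P → A = B := by
    intro A B h
    have h3 : Qᵀ * (Pᵀ * A * P) * Q = A := by
      calc Qᵀ * (Pᵀ * A * P) * Q = (Qᵀ * Pᵀ) * A * (P * Q) := by simp only [Matrix.mul_assoc]
        _ = A := by rw [hPQ, hPQt, Matrix.one_mul, Matrix.mul_one]
    have h4 : Qᵀ * (Pᵀ * B * P) * Q = B := by
      calc Qᵀ * (Pᵀ * B * P) * Q = (Qᵀ * Pᵀ) * B * (P * Q) := by simp only [Matrix.mul_assoc]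
        _ = B := by rw [hPQ, hPQt, Matrix.one_mul, Matrix.mul_one]
    rw [← h3, ← h4, h]
  have hskew : ∀ x : Matrix m m F, xᵀ * diagonal d + diagonal d * x = 0 → (P * x * Q)ᵀ * J + J * (P * x * Q) = 0 := by
    intro x hx
    refine hinj _ _ ?_
    rw [hf1, hx, Matrix.mul_zero, Matrix.zero_mul]
  -- the comap
  set φ : Matrix m m F →ₗ[F] Matrix m m F := LinearMap.mulRight F Q ∘ₗ LinearMap.mulLeft F P with hφ
  have hφa : ∀ x, φ x = P * x * Q := fun x => rfl
  have hmem : ∀ x, x ∈ L.comap φ ↔ P * x * Q ∈ L := fun x => Iff.rfl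
  have h3 := H d hd (L.comap φ) (fun x hx y hy => by
      rw [hmem] at hx hy ⊢
      have h4 := hbr _ hx _ hy
      rwa [hc1, hc1, ← Matrix.sub_mul, ← Matrix.mul_sub] at h4)
    (fun s hs' a ha => by
      rw [hmem] at ha ⊢
      have h4 := hL _ (hskew s hs') _ ha
      rwa [hc1, hc1, ← Matrix.sub_mul, ← Matrix.mul_sub] at h4)
    (by
      obtain ⟨c, hc, hcn⟩ := hns
      refine ⟨Q * c * P, ?_, ?_⟩
      · rw [hmem, hb1]
        exact hc
      · intro l hl
        refine hcn l ?_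
        rw [← hb1 c, hl, Matrix.mul_smul, Matrix.mul_one, Matrix.smul_mul, hPQ])
  rcases h3 with h3 | ⟨h3, h4⟩
  · left
    intro x hx
    have h5 := h3 (Q * x * P) (by rw [Matrix.trace_mul_comm, ← Matrix.mul_assoc, hPQ, Matrix.one_mul]; exact hx)
    rw [hmem, hb1] at h5
    exact h5
  · right
    refine ⟨fun s hs' => ?_, fun c hc => ?_⟩
    · have h5 := h3 (Q * s * P) (by
        rw [← hf1, hb1, hs', Matrix.mul_zero, Matrix.zero_mul])
      rw [hmem, hb1] at h5
      exact h5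
    · obtain ⟨l, hl⟩ := h4 (Q * c * P) (by rw [hmem, hb1]; exact hc)
      refine ⟨l, hinj _ _ ?_⟩
      rw [← hf1, hb1] at hl
      rw [hl, Matrix.mul_smul, Matrix.smul_mul, hD]

end Pool.Agent.Helper68.KN

namespace Pool.Agent.Helper79.KN

variable {F : Type*} [Field F] {m : Type*} [Fintype m] [DecidableEq m]

/-- N2 -/
theorem so_max {J : Matrix m m F} (h2 : (2 : F) ≠ 0) (hm : 4 < Fintype.card m) (hJ : IsUnit J.det)
    (hs : Jᵀ = J ∨ Jᵀ = -J) (hspan : ∀ s : Matrix m m F, sᵀ * J + J * s = 0 →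
      s ∈ Submodule.span F {y | yᵀ * J + J * y = 0 ∧ y * y = 0})
    (L : Submodule F (Matrix m m F)) (hbr : ∀ x ∈ L, ∀ y ∈ L, x * y - y * x ∈ L)
    (hL : ∀ s : Matrix m m F, sᵀ * J + J * s = 0 → ∀ a ∈ L, s * a - a * s ∈ L)
    (hns : ∃ c ∈ L, ∀ l : F, c ≠ l • (1 : Matrix m m F)) :
    (∀ x : Matrix m m F, x.trace = 0 → x ∈ L) ∨
      (∀ s : Matrix m m F, sᵀ * J + J * s = 0 → s ∈ L) ∧ ∀ c ∈ L, ∃ l : F, cᵀ * J + J * c = l • J := by
  have _ := hspan
  rcases hs with hs | hs
  · exact Pool.Agent.Helper68.KN.so_max_sym_of_diag h2 hJ hs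
      (fun d hd L' hbr' hL' hns' => so_max_diag h2 hm d hd L' hbr' hL' hns') L hbr hL hns
  · exact so_max_alt h2 hJ hs L hbr hL hns

end Pool.Agent.Helper79.KN
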