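import Mathlib

/-!
# KN-N2, diagonal case

Spaces of matrices closed under brackets and stable under the Lie algebra of a diagonal form, more than four rows: they are scalar,
or contain all matrices of trace `0`, or lie between the Lie algebra and the similitudes. Every characteristic except 2.
-/

set_option autoImplicit false

open Matrix

namespace Pool.Agent.Helper79.KN

section DG
variable {F : Type*} [Field F] {m : Type*} [Fintype m] [DecidableEq m]

/-- skew elements of a diagonal form -/
def xel (d : m → F) (a b : m) : Matrix m m F := d b • single a b (1 : F) - d a • single b a (1 : F)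

/-- general elements -/
def zel (d : m → F) (a b : m) (α β : F) : Matrix m m F := (α * d b) • single a b (1 : F) + (β * d a) • single b a (1 : F)

theorem xel_mem (d : m → F) (a b : m) : (xel d a b)ᵀ * diagonal d + diagonal d * xel d a b = 0 := by
  ext i j
  rw [Matrix.add_apply, mul_diagonal, diagonal_mul, Matrix.transpose_apply, Matrix.zero_apply]
  simp only [xel, Matrix.sub_apply, Matrix.smul_apply, single_apply, smul_eq_mul]
  by_cases h1 : a = j <;> by_cases h2 : b = i <;> by_cases h3 : b = j <;> by_cases h4 : a = i <;>
    simp [h1, h2, h3, h4] <;> subst_vars <;> simp_all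

theorem single_mul_apply' (a b : m) (M : Matrix m m F) (i j : m) :
    (single a b (1 : F) * M) i j = if i = a then M b j else 0 := by
  by_cases h : i = a
  · subst h
    rw [single_mul_apply_same, if_pos rfl, one_mul]
  · rw [single_mul_apply_of_ne _ _ _ _ _ h, if_neg h]

theorem mul_single_apply' (a b : m) (M : Matrix m m F) (i j : m) :
    (M * single a b (1 : F)) i j = if j = b then M i a else 0 := by
  by_cases h : j = b
  · subst h
    rw [mul_single_apply_same, if_pos rfl, mul_one]
  · rw [mul_single_apply_of_ne _ _ _ _ _ h, if_neg h]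

theorem ad_apply (d : m → F) (a b : m) (M : Matrix m m F) (i j : m) :
    (xel d a b * M - M * xel d a b) i j = (if i = a then d b * M b j else 0) - (if i = b then d a * M a j else 0) -
      (if j = b then d b * M i a else 0) + (if j = a then d a * M i b else 0) := by
  unfold xel
  rw [sub_mul, mul_sub, Matrix.sub_apply, Matrix.sub_apply, Matrix.sub_apply, smul_mul_assoc, smul_mul_assoc,
    mul_smul_comm, mul_smul_comm, Matrix.smul_apply, Matrix.smul_apply, Matrix.smul_apply, Matrix.smul_apply,
    single_mul_apply', single_mul_apply', mul_single_apply', mul_single_apply']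
  simp only [smul_eq_mul, mul_ite, mul_zero]
  ring

/-- the fourfold bracket -/
theorem ad4 (d : m → F) {a b u v e : m} (hab : a ≠ b) (hau : a ≠ u) (hav : a ≠ v) (hae : a ≠ e) (hbu : b ≠ u) (hbv : b ≠ v)
    (hbe : b ≠ e) (huv : u ≠ v) (hue : u ≠ e) (hve : v ≠ e) (c c1 c2 c3 c4 : Matrix m m F)
    (h1 : c1 = xel d u v * c - c * xel d u v) (h2 : c2 = xel d a b * c1 - c1 * xel d a b)
    (h3 : c3 = xel d a e * c2 - c2 * xel d a e) (h4 : c4 = xel d u a * c3 - c3 * xel d u a) :
    c4 = (d a * d u) • zel d a e (d v * c v b) (d b * c b v) := by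
  have e1 : ∀ i j, c1 i j = (if i = u then d v * c v j else 0) - (if i = v then d u * c u j else 0) -
      (if j = v then d v * c i u else 0) + (if j = u then d u * c i v else 0) := fun i j => by rw [h1, ad_apply]
  have e2 : ∀ i j, c2 i j = (if i = a then d b * c1 b j else 0) - (if i = b then d a * c1 a j else 0) -
      (if j = b then d b * c1 i a else 0) + (if j = a then d a * c1 i b else 0) := fun i j => by rw [h2, ad_apply]
  have e3 : ∀ i j, c3 i j = (if i = a then d e * c2 e j else 0) - (if i = e then d a * c2 a j else 0) -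
      (if j = e then d e * c2 i a else 0) + (if j = a then d a * c2 i e else 0) := fun i j => by rw [h3, ad_apply]
  have e4 : ∀ i j, c4 i j = (if i = u then d a * c3 a j else 0) - (if i = a then d u * c3 u j else 0) -
      (if j = a then d a * c3 i u else 0) + (if j = u then d u * c3 i a else 0) := fun i j => by rw [h4, ad_apply]
  ext i j
  rw [e4]
  simp only [zel, Matrix.smul_apply, Matrix.add_apply, single_apply, smul_eq_mul]
  simp only [e3, e2, e1]
  rcases eq_or_ne i a with hi | hi <;> rcases eq_or_ne j a with hj | hj
  · subst hi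
    subst hj
    simp [hab, hau, hav, hae, hbu, hbv, hbe, huv, hue, hve, hab.symm, hau.symm, hav.symm, hae.symm, hbu.symm, hbv.symm,
      hbe.symm, huv.symm, hue.symm, hve.symm]
  · subst hi
    rcases eq_or_ne j e with hj2 | hj2
    · subst hj2
      simp [hab, hau, hav, hae, hbu, hbv, hbe, huv, hue, hve, hab.symm, hau.symm, hav.symm, hae.symm, hbu.symm, hbv.symm,
        hbe.symm, huv.symm, hue.symm, hve.symm]
      ring
    · rcases eq_or_ne j u with hj3 | hj3
      · subst hj3
        simp [hab, hau, hav, hae, hbu, hbv, hbe, huv, hue, hve, hab.symm, hau.symm, hav.symm, hae.symm, hbu.symm, hbv.symm,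
          hbe.symm, huv.symm, hue.symm, hve.symm]
      · simp [hab, hau, hav, hae, hbu, hbv, hbe, huv, hue, hve, hab.symm, hau.symm, hav.symm, hae.symm, hbu.symm, hbv.symm,
          hbe.symm, huv.symm, hue.symm, hve.symm, hj, hj2, hj3, hj.symm, hj2.symm, hj3.symm]
  · subst hj
    rcases eq_or_ne i e with hj2 | hj2
    · subst hj2
      simp [hab, hau, hav, hae, hbu, hbv, hbe, huv, hue, hve, hab.symm, hau.symm, hav.symm, hae.symm, hbu.symm, hbv.symm,
        hbe.symm, huv.symm, hue.symm, hve.symm]
      ring
    · rcases eq_or_ne i u with hj3 | hj3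
      · subst hj3
        simp [hab, hau, hav, hae, hbu, hbv, hbe, huv, hue, hve, hab.symm, hau.symm, hav.symm, hae.symm, hbu.symm, hbv.symm,
          hbe.symm, huv.symm, hue.symm, hve.symm]
      · simp [hab, hau, hav, hae, hbu, hbv, hbe, huv, hue, hve, hab.symm, hau.symm, hav.symm, hae.symm, hbu.symm, hbv.symm,
          hbe.symm, huv.symm, hue.symm, hve.symm, hi, hj2, hj3, hi.symm, hj2.symm, hj3.symm]
  · rcases eq_or_ne i u with hi2 | hi2 <;> rcases eq_or_ne j u with hj2 | hj2
    · subst hi2
      subst hj2
      simp [hab, hau, hav, hae, hbu, hbv, hbe, huv, hue, hve, hab.symm, hau.symm, hav.symm, hae.symm, hbu.symm, hbv.symm,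
        hbe.symm, huv.symm, hue.symm, hve.symm]
    · subst hi2
      simp [hab, hau, hav, hae, hbu, hbv, hbe, huv, hue, hve, hab.symm, hau.symm, hav.symm, hae.symm, hbu.symm, hbv.symm,
        hbe.symm, huv.symm, hue.symm, hve.symm, hj, hj2, hj.symm, hj2.symm]
    · subst hj2
      simp [hab, hau, hav, hae, hbu, hbv, hbe, huv, hue, hve, hab.symm, hau.symm, hav.symm, hae.symm, hbu.symm, hbv.symm,
        hbe.symm, huv.symm, hue.symm, hve.symm, hi, hi2, hi.symm, hi2.symm]
    · simp [hi, hj, hi.symm, hj.symm, hi2, hj2]

/-- from one pair to another -/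
theorem zel_br (d : m → F) {p q k : m} (hpq : p ≠ q) (hpk : p ≠ k) (hqk : q ≠ k) (α β : F) :
    xel d p k * zel d p q α β - zel d p q α β * xel d p k = (-d p) • zel d k q α β := by
  ext i j
  rw [ad_apply]
  simp only [zel, Matrix.smul_apply, Matrix.add_apply, single_apply, smul_eq_mul]
  rcases eq_or_ne i p with hi | hi <;> rcases eq_or_ne j p with hj | hj
  · subst hi
    subst hj
    simp [hpq, hpk, hqk, hpq.symm, hpk.symm, hqk.symm]
  · subst hi
    simp [hpq, hpk, hqk, hpq.symm, hpk.symm, hqk.symm, hj, hj.symm]
  · subst hj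
    simp [hpq, hpk, hqk, hpq.symm, hpk.symm, hqk.symm, hi, hi.symm]
  · rcases eq_or_ne i k with hi2 | hi2 <;> rcases eq_or_ne j k with hj2 | hj2
    · subst hi2
      subst hj2
      simp [hpq, hpk, hqk, hpq.symm, hpk.symm, hqk.symm]
    · subst hi2
      simp [hpq, hpk, hqk, hpq.symm, hpk.symm, hqk.symm, hj, hj2, hj.symm, hj2.symm]
      split_ifs <;> ring
    · subst hj2
      simp [hpq, hpk, hqk, hpq.symm, hpk.symm, hqk.symm, hi, hi2, hi.symm, hi2.symm]
      split_ifs <;> ring
    · simp [hi, hj, hi.symm, hj.symm, hi2, hj2, hi2.symm, hj2.symm]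

theorem zel_swap (d : m → F) (p q : m) (α β : F) : zel d p q α β = zel d q p β α := by
  unfold zel
  rw [add_comm]

/-- brackets of symmetric elements -/
theorem sel_br (d : m → F) {p q r : m} (hpq : p ≠ q) (hpr : p ≠ r) (hqr : q ≠ r) :
    zel d p q 1 1 * zel d q r 1 1 - zel d q r 1 1 * zel d p q 1 1 = d q • xel d p r := by
  unfold zel xel
  simp only [one_mul, mul_add, add_mul, smul_mul_assoc, mul_smul_comm, single_mul_single_same]
  rw [single_mul_single_of_ne _ _ _ _ hqr, single_mul_single_of_ne _ _ _ _ hpq, single_mul_single_of_ne _ _ _ _ hpr,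
    single_mul_single_of_ne _ _ _ _ hpr.symm, single_mul_single_of_ne _ _ _ _ hpq.symm,
    single_mul_single_of_ne _ _ _ _ hqr.symm]
  simp only [smul_zero, add_zero, zero_add, one_mul, smul_sub, smul_smul]
  ring_nf

/-- all elementary matrices give all matrices of trace `0` -/
theorem top_of_single (M : Submodule F (Matrix m m F)) (hbr : ∀ x ∈ M, ∀ y ∈ M, x * y - y * x ∈ M)
    (hall : ∀ k l : m, k ≠ l → single k l (1 : F) ∈ M) (x : Matrix m m F) (hx : x.trace = 0) : x ∈ M := by
  rcases isEmpty_or_nonempty m with hm | ⟨⟨i⟩⟩
  · have h0 : x = 0 := by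
      ext a
      exact hm.elim a
    rw [h0]
    exact M.zero_mem
  have hdiag : ∀ k l : m, single k k (1 : F) - single l l 1 ∈ M := by
    intro k l
    by_cases hkl : k = l
    · subst hkl
      rw [sub_self]
      exact M.zero_mem
    · have h3 := hbr _ (hall k l hkl) _ (hall l k (Ne.symm hkl))
      rwa [single_mul_single_same, single_mul_single_same, one_mul] at h3
  have hdec : x = ∑ a : m, ∑ b : m, (if a = b then x a a • (single a a (1 : F) - single i i 1) else x a b • single a b (1 : F)) := by
    have h3 : ∀ a b : m, (if a = b then x a a • (single a a (1 : F) - single i i 1) else x a b • single a b (1 : F)) =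
        single a b (x a b) - (if a = b then x a a • single i i (1 : F) else 0) := by
      intro a b
      by_cases hab : a = b
      · subst hab
        rw [if_pos rfl, if_pos rfl, smul_sub, smul_single, smul_eq_mul, mul_one]
      · rw [if_neg hab, if_neg hab, sub_zero, smul_single, smul_eq_mul, mul_one]
    have h4 : ∑ a : m, ∑ b : m, (if a = b then x a a • single i i (1 : F) else 0) = 0 := by
      have h5 : ∀ a : m, ∑ b : m, (if a = b then x a a • single i i (1 : F) else 0) = x a a • single i i (1 : F) := by
        intro a
        rw [Finset.sum_ite_eq]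
        simp
      rw [Finset.sum_congr rfl fun a _ => h5 a, ← Finset.sum_smul]
      have h6 : ∑ a, x a a = 0 := hx
      rw [h6, zero_smul]
    calc x = ∑ a : m, ∑ b : m, single a b (x a b) := matrix_eq_sum_single x
      _ = ∑ a : m, ∑ b : m, single a b (x a b) - ∑ a : m, ∑ b : m, (if a = b then x a a • single i i (1 : F) else 0) := by
          rw [h4, sub_zero]
      _ = _ := by
          rw [← Finset.sum_sub_distrib]
          refine Finset.sum_congr rfl fun a _ => ?_
          rw [← Finset.sum_sub_distrib]
          exact Finset.sum_congr rfl fun b _ => (h3 a b).symm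
  rw [hdec]
  refine M.sum_mem fun a _ => M.sum_mem fun b _ => ?_
  split_ifs with hab
  · exact M.smul_mem _ (hdiag a i)
  · exact M.smul_mem _ (hall a b hab)

/-- the diagonal case -/
theorem so_max_diag (h2 : (2 : F) ≠ 0) (hm : 4 < Fintype.card m) (d : m → F) (hd : ∀ i, d i ≠ 0)
    (L : Submodule F (Matrix m m F)) (hbr : ∀ x ∈ L, ∀ y ∈ L, x * y - y * x ∈ L)
    (hL : ∀ s : Matrix m m F, sᵀ * diagonal d + diagonal d * s = 0 → ∀ a ∈ L, s * a - a * s ∈ L)
    (hns : ∃ c ∈ L, ∀ l : F, c ≠ l • (1 : Matrix m m F)) :
    (∀ x : Matrix m m F, x.trace = 0 → x ∈ L) ∨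
      (∀ s : Matrix m m F, sᵀ * diagonal d + diagonal d * s = 0 → s ∈ L) ∧
        ∀ c ∈ L, ∃ l : F, cᵀ * diagonal d + diagonal d * c = l • diagonal d := by
  have hX : ∀ a b : m, ∀ c ∈ L, xel d a b * c - c * xel d a b ∈ L := fun a b c hc => hL _ (xel_mem d a b) c hc
  -- a third index
  have hthird : ∀ T : Finset m, T.card ≤ 4 → ∃ k, k ∉ T := by
    intro T hT
    by_contra hcon
    push Not at hcon
    have h3 : T = Finset.univ := Finset.eq_univ_iff_forall.2 hcon
    rw [h3, Finset.card_univ] at hT
    omega
  -- moving
  have hrow : ∀ p q k : m, p ≠ q → k ≠ q → ∀ α β : F, zel d p q α β ∈ L → zel d k q α β ∈ L := by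
    intro p q k hpq hkq α β h
    by_cases hkp : k = p
    · rw [hkp]
      exact h
    · have h3 := hX p k _ h
      rw [zel_br d hpq (Ne.symm hkp) (Ne.symm hkq)] at h3
      have h4 := L.smul_mem (-d p)⁻¹ h3
      rwa [smul_smul, inv_mul_cancel₀ (neg_ne_zero.2 (hd p)), one_smul] at h4
  have hcol : ∀ p q k : m, p ≠ q → k ≠ p → ∀ α β : F, zel d p q α β ∈ L → zel d p k α β ∈ L := by
    intro p q k hpq hkp α β h
    rw [zel_swap] at h ⊢
    exact hrow q p k (Ne.symm hpq) hkp β α h
  have hmove : ∀ p q k l : m, p ≠ q → k ≠ l → ∀ α β : F, zel d p q α β ∈ L → zel d k l α β ∈ L := by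
    intro p q k l hpq hkl α β h
    -- a row index different from `q` and `l`
    obtain ⟨t, ht⟩ := hthird {q, l} ((Finset.card_insert_le _ _).trans (by simp))
    simp only [Finset.mem_insert, Finset.mem_singleton, not_or] at ht
    have h3 := hrow p q t hpq ht.1 α β h
    have h4 := hcol t q l ht.1 (Ne.symm ht.2) α β h3
    exact hrow t l k ht.2 hkl α β h4
  -- extraction
  have hext : ∀ c ∈ L, ∀ b v : m, b ≠ v → ∀ k l : m, k ≠ l → zel d k l (d v * c v b) (d b * c b v) ∈ L := by
    intro c hc b v hbv k l hkl
    obtain ⟨a, ha⟩ := hthird {b, v} ((Finset.card_insert_le _ _).trans (by simp))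
    obtain ⟨u, hu⟩ := hthird {a, b, v} ((Finset.card_insert_le _ _).trans (by
      have := Finset.card_insert_le b {v}
      simp at this
      omega))
    obtain ⟨e, he⟩ := hthird {a, b, u, v} ((Finset.card_insert_le _ _).trans (by
      have h3 := Finset.card_insert_le b {u, v}
      have h4 := Finset.card_insert_le u {v}
      simp at h4
      omega))
    simp only [Finset.mem_insert, Finset.mem_singleton, not_or] at ha hu he
    have h3 := ad4 d ha.1 (Ne.symm hu.1) ha.2 (Ne.symm he.1) (Ne.symm hu.2.1) hbv (Ne.symm he.2.1) hu.2.2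
      (Ne.symm he.2.2.1) (Ne.symm he.2.2.2) c _ _ _ _ rfl rfl rfl rfl
    have h4 := hX u a _ (hX a e _ (hX a b _ (hX u v c hc)))
    rw [h3] at h4
    have h5 := L.smul_mem (d a * d u)⁻¹ h4
    rw [smul_smul, inv_mul_cancel₀ (mul_ne_zero (hd a) (hd u)), one_smul] at h5
    exact hmove a e k l (Ne.symm he.1) hkl _ _ h5
  -- two cases
  by_cases hA : ∃ c ∈ L, ∃ b v : m, b ≠ v ∧ d v * c v b + d b * c b v ≠ 0
  · left
    obtain ⟨c, hc, b, v, hbv, hne⟩ := hA
    have hS : ∀ k l : m, k ≠ l → zel d k l 1 1 ∈ L := by
      intro k l hkl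
      have h3 := hext c hc b v hbv k l hkl
      have h4 := hext c hc b v hbv l k (Ne.symm hkl)
      rw [zel_swap] at h4
      have h5 := L.smul_mem (d v * c v b + d b * c b v)⁻¹ (L.add_mem h3 h4)
      have h6 : (d v * c v b + d b * c b v)⁻¹ • (zel d k l (d v * c v b) (d b * c b v) + zel d k l (d b * c b v) (d v * c v b)) =
          zel d k l 1 1 := by
        have h7 : zel d k l (d v * c v b) (d b * c b v) + zel d k l (d b * c b v) (d v * c v b) =
            (d v * c v b + d b * c b v) • zel d k l 1 1 := by
          unfold zel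
          simp only [smul_add, smul_smul]
          rw [add_add_add_comm, ← add_smul, ← add_smul]
          ring_nf
        rw [h7, smul_smul, inv_mul_cancel₀ hne, one_smul]
      rwa [h6] at h5
    have hXm : ∀ k l : m, k ≠ l → xel d k l ∈ L := by
      intro k l hkl
      obtain ⟨t, ht⟩ := hthird {k, l} ((Finset.card_insert_le _ _).trans (by simp))
      simp only [Finset.mem_insert, Finset.mem_singleton, not_or] at ht
      have h3 := hbr _ (hS k t (Ne.symm ht.1)) _ (hS t l ht.2)
      rw [sel_br d (Ne.symm ht.1) hkl ht.2] at h3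
      have h4 := L.smul_mem (d t)⁻¹ h3
      rwa [smul_smul, inv_mul_cancel₀ (hd t), one_smul] at h4
    have hE : ∀ k l : m, k ≠ l → single k l (1 : F) ∈ L := by
      intro k l hkl
      have h3 := L.smul_mem (2 * d l)⁻¹ (L.add_mem (hS k l hkl) (hXm k l hkl))
      have h4 : zel d k l 1 1 + xel d k l = (2 * d l) • single k l (1 : F) := by
        unfold zel xel
        rw [one_mul, one_mul, two_mul, add_smul]
        abel
      rwa [h4, smul_smul, inv_mul_cancel₀ (mul_ne_zero h2 (hd l)), one_smul] at h3
    exact fun x hx => top_of_single L hbr hE x hx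
  · right
    push Not at hA
    -- constant diagonals
    have hdg : ∀ c ∈ L, ∀ p q : m, c p p = c q q := by
      intro c hc p q
      by_cases hpq : p = q
      · rw [hpq]
      have h3 := hA _ (hX p q c hc) p q hpq
      rw [ad_apply, ad_apply] at h3
      simp only [hpq, Ne.symm hpq, if_true, if_false] at h3
      have h4 : (2 * (d p * d q)) * (c q q - c p p) = 0 := by linear_combination h3
      rcases mul_eq_zero.1 h4 with h5 | h5
      · exact absurd h5 (mul_ne_zero h2 (mul_ne_zero (hd p) (hd q)))
      · exact (sub_eq_zero.1 h5).symm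
    obtain ⟨i0⟩ : Nonempty m := Fintype.card_pos_iff.1 (by omega)
    refine ⟨?_, ?_⟩
    · obtain ⟨c, hc, hcn⟩ := hns
      obtain ⟨b, v, hbv, hne⟩ : ∃ b v : m, b ≠ v ∧ c v b ≠ 0 := by
        by_contra hcon
        push Not at hcon
        refine hcn (c i0 i0) ?_
        ext i j
        rw [Matrix.smul_apply, smul_eq_mul]
        by_cases hij : i = j
        · subst hij
          rw [one_apply_eq, mul_one]
          exact hdg c hc i i0
        · rw [one_apply_ne hij, mul_zero]
          exact hcon j i (Ne.symm hij)
      have hXm : ∀ k l : m, xel d k l ∈ L := by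
        intro k l
        by_cases hkl : k = l
        · subst hkl
          unfold xel
          rw [sub_self]
          exact L.zero_mem
        have h3 := hext c hc b v hbv k l hkl
        have h4 := hA c hc b v hbv
        have h5 : d b * c b v = -(d v * c v b) := by linear_combination h4
        have h6 : zel d k l (d v * c v b) (d b * c b v) = (d v * c v b) • xel d k l := by
          rw [h5]
          unfold zel xel
          rw [smul_sub, smul_smul, smul_smul, neg_mul, neg_smul, sub_eq_add_neg]
        rw [h6] at h3
        have h7 := L.smul_mem (d v * c v b)⁻¹ h3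
        rwa [smul_smul, inv_mul_cancel₀ (mul_ne_zero (hd v) hne), one_smul] at h7
      intro s hs
      have hij : ∀ i j, s j i * d j + d i * s i j = 0 := by
        intro i j
        have h3 := congrFun (congrFun hs i) j
        rwa [Matrix.add_apply, mul_diagonal, diagonal_mul, Matrix.transpose_apply, Matrix.zero_apply] at h3
      have h3 : (2 : F) • s = ∑ p : m, ∑ q : m, (s p q / d q) • xel d p q := by
        ext i j
        rw [Matrix.smul_apply, smul_eq_mul, Matrix.sum_apply]
        have h4 : ∀ p : m, (∑ q : m, (s p q / d q) • xel d p q) i j =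
            (if p = i then s i j else 0) - (if p = j then s j i / d i * d j else 0) := by
          intro p
          rw [Matrix.sum_apply]
          have h5 : ∀ q : m, ((s p q / d q) • xel d p q) i j =
              (if q = j then (if p = i then s i j else 0) else 0) - (if q = i then (if p = j then s j i / d i * d j else 0) else 0) := by
            intro q
            unfold xel
            rw [Matrix.smul_apply, Matrix.sub_apply, Matrix.smul_apply, Matrix.smul_apply, single_apply, single_apply, smul_eq_mul,
              smul_eq_mul, smul_eq_mul, mul_sub]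
            congr 1
            · by_cases hq : q = j
              · subst hq
                by_cases hp : p = i
                · subst hp
                  simp [div_mul_cancel₀ _ (hd q)]
                · simp [hp]
              · simp [hq]
            · by_cases hq : q = i
              · subst hq
                by_cases hp : p = j
                · subst hp
                  simp
                · simp [hp]
              · simp [hq]
          rw [Finset.sum_congr rfl fun q _ => h5 q, Finset.sum_sub_distrib, Finset.sum_ite_eq', Finset.sum_ite_eq',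
            if_pos (Finset.mem_univ _), if_pos (Finset.mem_univ _)]
        rw [Finset.sum_congr rfl fun p _ => h4 p, Finset.sum_sub_distrib, Finset.sum_ite_eq', Finset.sum_ite_eq',
          if_pos (Finset.mem_univ _), if_pos (Finset.mem_univ _)]
        have h6 := hij i j
        have h7 : s j i / d i * d j = -(s i j) := by
          rw [div_mul_eq_mul_div, div_eq_iff (hd i)]
          linear_combination h6
        rw [h7]
        ring
      have h4 : (2 : F) • s ∈ L := by
        rw [h3]
        exact L.sum_mem fun p _ => L.sum_mem fun q _ => L.smul_mem _ (hXm p q)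
      have h5 := L.smul_mem (2 : F)⁻¹ h4
      rwa [smul_smul, inv_mul_cancel₀ h2, one_smul] at h5
    · intro c hc
      refine ⟨2 * c i0 i0, ?_⟩
      ext i j
      rw [Matrix.add_apply, mul_diagonal, diagonal_mul, Matrix.transpose_apply, Matrix.smul_apply, smul_eq_mul]
      by_cases hij : i = j
      · subst hij
        rw [diagonal_apply_eq, hdg c hc i i0]
        ring
      · rw [diagonal_apply_ne _ hij, mul_zero]
        have h3 := hA c hc i j hij
        linear_combination h3

end DG

end Pool.Agent.Helper79.KN
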